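import Mathlib
import Pool.Agent.H770R2.Spec.Props

open scoped ComplexOrder InnerProductSpace
open Filter

noncomputable section

namespace H770R2.Spec

theorem prove_inv (h : P_sing) : P_inv := by
  intro A _ _ _ B _ φ C hs hu hC
  rcases subsingleton_or_nontrivial B with hB | hB
  · refine ⟨0, le_rfl, fun a b _ => ?_⟩
    rw [Subsingleton.elim ((b⁻¹ : Bˣ) : B) 0]
    simp
  · have hA : Nontrivial A := by
      obtain ⟨x, y, hxy⟩ := hB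
      obtain ⟨a, rfl⟩ := hs x
      obtain ⟨a', rfl⟩ := hs y
      exact ⟨a, a', fun e => hxy (by rw [e])⟩
    let Φ : A →L[ℂ] B := φ.mkContinuous C hC
    have hΦ : ∀ x, Φ x = φ x := fun x => rfl
    obtain ⟨C0, hC0, hpre⟩ := Φ.exists_preimage_norm_le (fun y => hs y)
    refine ⟨C0, hC0.le, fun a b hab => ?_⟩
    obtain ⟨y, hy1, hy2⟩ := h B b
    obtain ⟨x, hx1, hx2⟩ := hpre y
    have hnu : ¬ IsUnit ((a : A) + x) := by
      intro hu'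
      apply hy2
      have := hu _ hu'
      rw [map_add, ← hab, ← hΦ, hx1] at this
      exact this
    have hpos : 0 < ‖((a⁻¹ : Aˣ) : A)‖ := Units.norm_pos a⁻¹
    have h1 : ‖((a⁻¹ : Aˣ) : A)‖⁻¹ ≤ ‖x‖ := by
      by_contra hlt
      push Not at hlt
      exact hnu ⟨a.add x hlt, rfl⟩
    have h2 : 1 ≤ ‖x‖ * ‖((a⁻¹ : Aˣ) : A)‖ := by
      rw [inv_le_iff_one_le_mul₀ hpos] at h1
      exact h1
    have h3 : 1 ≤ C0 * ‖y‖ * ‖((a⁻¹ : Aˣ) : A)‖ :=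
      h2.trans (mul_le_mul_of_nonneg_right hx2 hpos.le)
    calc ‖((b⁻¹ : Bˣ) : B)‖ = 1 * ‖((b⁻¹ : Bˣ) : B)‖ := (one_mul _).symm
      _ ≤ (C0 * ‖y‖ * ‖((a⁻¹ : Aˣ) : A)‖) * ‖((b⁻¹ : Bˣ) : B)‖ :=
        mul_le_mul_of_nonneg_right h3 (norm_nonneg _)
      _ = (C0 * ‖((a⁻¹ : Aˣ) : A)‖) * (‖y‖ * ‖((b⁻¹ : Bˣ) : B)‖) := by ring
      _ ≤ (C0 * ‖((a⁻¹ : Aˣ) : A)‖) * 1 :=
        mul_le_mul_of_nonneg_left hy1 (by positivity)
      _ = C0 * ‖((a⁻¹ : Aˣ) : A)‖ := mul_one _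

end H770R2.Spec
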